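import Pool.Agent.TH977.PW.Prog
import Pool.Agent.Y677.RSZ.FinEx
import Pool.Agent.Y677.KC.Cls

set_option autoImplicit false

/-!
# Narrow arithmetic progressions of prime triples of both shapes in residue classes

Let `H` be `{0, 2, 6}` or `{0, 4, 6}`, let `q ≥ 1` and let `a` be a class with `(a + h, q) = 1` for all
`h ∈ H`. Let `R H a q r` be the set of the `n ≡ a (mod q)` for which all prime factors of all `n + h`
(`h ∈ H`) are larger than `n ^ (1 / r)`; it contains all `n ≡ a (mod q)` for which all `n + h` are prime.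
For an ARBITRARY subset `A` of `R H a q r` (for example a set of prime triples of the shape `H`), in
every short interval all but a small proportion of the expected number of elements of `A` are terms of
`l`-term arithmetic progressions inside `A` with difference at most `(log X) ^ B`.
Moreover (Chen's theorem) any chosen one of the `n + h` can be taken to be prime and any other chosen one
a product of at most two large primes, the third one being almost prime: the number of these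
`n ≡ a (mod q)`, `q` squarefree, has the expected order of magnitude in all intervals of length `θ X`, and
all these intervals contain narrow progressions of such `n`.
-/

namespace Pool.Agent.Results.MP_c0d11e_nt.NarrowProgressions

open Finset Filter
open Pool.Agent.TH977.PW (N)
open Pool.Agent.Y677.RSZ (InProg Outside)

/-- `n ≡ a (mod q)`, and all prime factors of all `n + h`, `h ∈ H`, are larger than `n ^ (1 / r)`. -/
def R (H : Finset ℕ) (a q r : ℕ) : Set ℕ :=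
  {n | n ≡ a [MOD q] ∧ ∀ h ∈ H, ∀ p : ℕ, p.Prime → p ∣ n + h → (n : ℝ) ^ (1 / (r : ℝ)) < (p : ℝ)}

/-- The shapes `0, 2, 6` and `0, 4, 6`. -/
def e (s : ℕ) : Fin 3 → ℕ := ![0, s, 6]

/-- The `n ≡ a (mod Q)` such that all prime factors of all `n + e l` are larger than `n ^ (1 / t)`, the
number `n + e i` is prime, and `n + e j` has at most two prime factors, all of them larger than
`n ^ (1 / 9)`. -/
def T (e : Fin 3 → ℕ) (a Q t : ℕ) (i j : Fin 3) : Set ℕ :=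
  {n | n ≡ a [MOD Q] ∧ (∀ l, ∀ p : ℕ, p.Prime → p ∣ n + e l → (n : ℝ) ^ (1 / (t : ℝ)) < (p : ℝ)) ∧
    (n + e i).Prime ∧ (n + e j).primeFactorsList.length ≤ 2 ∧
    ∀ p : ℕ, p.Prime → p ∣ n + e j → (n : ℝ) ^ (1 / (9 : ℝ)) < (p : ℝ)}

/-- no local obstruction -/
lemma adm (H : Finset ℕ) (hH : H = {0, 2, 6} ∨ H = {0, 4, 6}) (p : ℕ)
    (hp : p.Prime) : ∃ m : ℕ, ∀ h ∈ H, ¬ p ∣ m + h := by
  rcases hH with rfl | rfl
  · rcases lt_or_ge p 12 with h30 | h30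
    · refine ⟨17, fun h hh hd => ?_⟩
      simp only [mem_insert, mem_singleton] at hh
      have := (Nat.prime_dvd_prime_iff_eq hp
        (by rcases hh with rfl | rfl | rfl <;> norm_num)).1 hd
      omega
    · refine ⟨5, fun h hh hd => ?_⟩
      simp only [mem_insert, mem_singleton] at hh
      have := Nat.le_of_dvd (by omega) hd
      omega
  · rcases lt_or_ge p 14 with h30 | h30
    · refine ⟨37, fun h hh hd => ?_⟩
      simp only [mem_insert, mem_singleton] at hh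
      have := (Nat.prime_dvd_prime_iff_eq hp
        (by rcases hh with rfl | rfl | rfl <;> norm_num)).1 hd
      omega
    · refine ⟨7, fun h hh hd => ?_⟩
      simp only [mem_insert, mem_singleton] at hh
      have := Nat.le_of_dvd (by omega) hd
      omega

/-- The `n` of `R H a q r` for which all `n + h` have at most `r` prime factors. -/
def P (H : Finset ℕ) (a q r : ℕ) : Set ℕ :=
  {n | n ∈ R H a q r ∧ ∀ h ∈ H, (n + h).primeFactorsList.length ≤ r}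

theorem rough (H : Finset ℕ) (hH : H = {0, 2, 6} ∨ H = {0, 4, 6})
    (a q : ℕ) (hq : 1 ≤ q) (ha : ∀ h ∈ H, Nat.Coprime (a + h) q)
    (θ : ℝ) (hθ : 0 < θ) (hθ1 : θ ≤ 1) :
    ∃ r₀ : ℕ, 2 ≤ r₀ ∧ ∀ r : ℕ, r₀ ≤ r →
      (∀ n : ℕ, n ≡ a [MOD q] → (∀ h ∈ H, (n + h).Prime) → n ∈ R H a q r) ∧
      (∃ κ : ℝ, 0 < κ ∧ ∀ᶠ X : ℕ in atTop, ∀ Y : ℕ, (X : ℝ) ^ θ ≤ Y → Y ≤ X →
        κ * Y / Real.log X ^ 3 ≤
          N (P H a q r) X (X + Y)) ∧
      (∀ l : ℕ, 2 ≤ l → ∀ ε : ℝ, 0 < ε → ∃ B : ℕ, ∀ᶠ X : ℕ in atTop, ∀ Y : ℕ,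
        (X : ℝ) ^ θ ≤ Y → Y ≤ X → ∀ A : Set ℕ, A ⊆ R H a q r →
          (N (Outside A l (Real.log X ^ B) X (X + Y)) X (X + Y) : ℝ) ≤ ε * Y / Real.log X ^ 3) ∧
      ∀ l : ℕ, ∃ B : ℕ, ∀ᶠ X : ℕ in atTop, ∀ Y : ℕ, (X : ℝ) ^ θ ≤ Y → Y ≤ X →
        ∃ u d : ℕ, 1 ≤ d ∧ (d : ℝ) ≤ Real.log X ^ B ∧
          ∀ i < l, u + i * d ∈ P H a q r ∧ X < u + i * d ∧ u + i * d ≤ X + Y := by
  have h0 : 0 ∈ H := by rcases hH with rfl | rfl <;> simp
  have hc : H.card = 3 := by rcases hH with rfl | rfl <;> rfl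
  obtain ⟨r0, hr0, h⟩ := Pool.Agent.Y677.RSZ.narrow_prog H ⟨0, h0⟩ q a hq ha
    (fun p hp => adm H hH p hp)
    (fun r => R H a q r)
    (fun r => P H a q r) 3 hc
    (fun r m _ hm => hm.2)
    (fun r _ => Eventually.of_forall (fun m hm h1 h2 => ⟨⟨hm, h1⟩, h2⟩)) θ hθ hθ1
  refine ⟨r0, hr0, fun r hr => ⟨?_, (h r hr).1, (h r hr).2,
    Pool.Agent.Y677.RSZ.exists_prog (fun _ hm => hm.1) 3 (h r hr).1 (h r hr).2⟩⟩
  intro n hna hn
  refine ⟨hna, fun h hh q' hq' hdv => ?_⟩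
  have hn2 : 2 ≤ n := by simpa using (hn 0 h0).two_le
  rw [(Nat.prime_dvd_prime_iff_eq hq' (hn h hh)).1 hdv]
  exact Pool.Agent.TH977.PW.rpow_lt_of_le r n (n + h) (hr0.trans hr) hn2 (by omega)

lemma pat (s : ℕ) (hs : s = 2 ∨ s = 4) : Pool.Agent.Y677.KC.Pat (e s) where
  inj := by
    intro i j h
    rcases hs with rfl | rfl <;> fin_cases i <;> fin_cases j <;> simp_all [e]
  adm := by
    intro q hq
    obtain ⟨m, hm⟩ := adm {0, s, 6} (by rcases hs with rfl | rfl <;> simp) q hq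
    refine ⟨m, fun l => ?_⟩
    fin_cases l
    · exact hm 0 (by simp)
    · exact hm s (by simp)
    · exact hm 6 (by simp)

/-- **Narrow progressions of prime triples of both shapes in residue classes.** -/
theorem result :
    (∀ s : ℕ, s = 2 ∨ s = 4 → ∀ a Q : ℕ, Squarefree Q → (∀ l, Nat.Coprime (a + e s l) Q) →
      ∃ t : ℕ, 2 ≤ t ∧
        (∀ n : ℕ, n ≡ a [MOD Q] → (∀ l, (n + e s l).Prime) → ∀ i j : Fin 3, n ∈ T (e s) a Q t i j) ∧
        (∃ κ : ℝ, 0 < κ ∧ ∀ θ : ℝ, 0 < θ → ∀ᶠ X : ℕ in atTop, ∀ i j : Fin 3, i ≠ j → ∀ Y : ℕ,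
          θ * X ≤ Y → Y ≤ X → κ * Y / Real.log X ^ 3 ≤ N (T (e s) a Q t i j) X (X + Y)) ∧
        ∀ i j : Fin 3, i ≠ j → ∀ θ : ℝ, 0 < θ → ∀ l : ℕ, ∃ B : ℕ, ∀ᶠ X : ℕ in atTop, ∀ Y : ℕ,
          θ * X ≤ Y → Y ≤ X → ∃ u d : ℕ, 1 ≤ d ∧ (d : ℝ) ≤ Real.log X ^ B ∧
            ∀ m < l, u + m * d ∈ T (e s) a Q t i j ∧ X < u + m * d ∧ u + m * d ≤ X + Y) ∧
    ∀ H : Finset ℕ, H = {0, 2, 6} ∨ H = {0, 4, 6} → ∀ a q : ℕ, 1 ≤ q →
      (∀ h ∈ H, Nat.Coprime (a + h) q) → ∀ θ : ℝ, 0 < θ → θ ≤ 1 →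
      ∃ r₀ : ℕ, 2 ≤ r₀ ∧ ∀ r : ℕ, r₀ ≤ r →
        (∀ n : ℕ, n ≡ a [MOD q] → (∀ h ∈ H, (n + h).Prime) → n ∈ R H a q r) ∧
        (∃ κ : ℝ, 0 < κ ∧ ∀ᶠ X : ℕ in atTop, ∀ Y : ℕ, (X : ℝ) ^ θ ≤ Y → Y ≤ X →
          κ * Y / Real.log X ^ 3 ≤
            N (P H a q r) X (X + Y)) ∧
        (∀ l : ℕ, 2 ≤ l → ∀ ε : ℝ, 0 < ε → ∃ B : ℕ, ∀ᶠ X : ℕ in atTop, ∀ Y : ℕ,
          (X : ℝ) ^ θ ≤ Y → Y ≤ X → ∀ A : Set ℕ, A ⊆ R H a q r →
            (N (Outside A l (Real.log X ^ B) X (X + Y)) X (X + Y) : ℝ) ≤ ε * Y / Real.log X ^ 3) ∧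
        ∀ l : ℕ, ∃ B : ℕ, ∀ᶠ X : ℕ in atTop, ∀ Y : ℕ, (X : ℝ) ^ θ ≤ Y → Y ≤ X →
          ∃ u d : ℕ, 1 ≤ d ∧ (d : ℝ) ≤ Real.log X ^ B ∧
            ∀ i < l, u + i * d ∈ P H a q r ∧ X < u + i * d ∧ u + i * d ≤ X + Y := by
  refine ⟨fun s hs a Q hQ ha => ?_, fun H hH a q hq ha θ hθ hθ1 => rough H hH a q hq ha θ hθ hθ1⟩
  obtain ⟨t, ht, h1, h2⟩ := Pool.Agent.Y677.KC.pattern_cls (by norm_num) (e s) (pat s hs) a Q hQ ha
  exact ⟨t, ht, fun n hna hn i j => ⟨hna, Pool.Agent.Y677.KC.mem_T_of_prime (e s) t ht n hn i j⟩,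
    h1, h2⟩

end Pool.Agent.Results.MP_c0d11e_nt.NarrowProgressions
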