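import Pool.Agent.TH977.PW.Prog

set_option autoImplicit false

/-!
# Regular neighbourhoods of prime triples of both shapes in arithmetic progressions

Let `H` be `{0, 2, 6}` or `{0, 4, 6}`, let `q ≥ 1` and let `a` be a class with `(a + h, q) = 1` for all
`h ∈ H`. Let `R H a q r` be the set of the `n ≡ a (mod q)` for which all prime factors of all `n + h`
(`h ∈ H`) are larger than `n ^ (1 / r)`; it contains all `n ≡ a (mod q)` for which all `n + h` are prime.
For an ARBITRARY subset `A` of `R H a q r` (for example a set of prime triples of the shape `H`), in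
every short interval all but a small proportion of the elements of `A` are regular points of `A`.
-/

namespace Pool.Agent.Results.MP_c0d11e_nt.RegularTriples

open Finset Filter
open Pool.Agent.TH977.PW (N Irregular)

/-- `n ≡ a (mod q)`, and all prime factors of all `n + h`, `h ∈ H`, are larger than `n ^ (1 / r)`. -/
def R (H : Finset ℕ) (a q r : ℕ) : Set ℕ :=
  {n | n ≡ a [MOD q] ∧ ∀ h ∈ H, ∀ p : ℕ, p.Prime → p ∣ n + h → (n : ℝ) ^ (1 / (r : ℝ)) < (p : ℝ)}

/-- no local obstruction -/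
lemma adm (H : Finset ℕ) (hH : H = {0, 2, 6} ∨ H = {0, 4, 6}) (p : ℕ)
    (hp : p.Prime) : ∃ m : ℕ, ∀ h ∈ H, ¬ p ∣ m + h := by
  rcases hH with rfl | rfl
  · rcases lt_or_ge p 12 with h30 | h30
    · refine ⟨17, fun h hh hd => ?_⟩
      simp only [mem_insert, mem_singleton] at hh
      have := (Nat.prime_dvd_prime_iff_eq hp
        (by rcases hh with rfl | rfl | rfl <;> norm_num)).1 hd
      omega
    · refine ⟨5, fun h hh hd => ?_⟩
      simp only [mem_insert, mem_singleton] at hh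
      have := Nat.le_of_dvd (by omega) hd
      omega
  · rcases lt_or_ge p 14 with h30 | h30
    · refine ⟨37, fun h hh hd => ?_⟩
      simp only [mem_insert, mem_singleton] at hh
      have := (Nat.prime_dvd_prime_iff_eq hp
        (by rcases hh with rfl | rfl | rfl <;> norm_num)).1 hd
      omega
    · refine ⟨7, fun h hh hd => ?_⟩
      simp only [mem_insert, mem_singleton] at hh
      have := Nat.le_of_dvd (by omega) hd
      omega

/-- **Regular neighbourhoods of prime triples of both shapes in arithmetic progressions.** -/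
theorem result (H : Finset ℕ) (hH : H = {0, 2, 6} ∨ H = {0, 4, 6})
    (a q : ℕ) (hq : 1 ≤ q) (ha : ∀ h ∈ H, Nat.Coprime (a + h) q)
    (θ : ℝ) (hθ : 0 < θ) (hθ1 : θ ≤ 1) :
    ∃ r₀ : ℕ, 2 ≤ r₀ ∧ ∀ r : ℕ, r₀ ≤ r →
      (∀ n : ℕ, n ≡ a [MOD q] → (∀ h ∈ H, (n + h).Prime) → n ∈ R H a q r) ∧
      (∃ κ : ℝ, 0 < κ ∧ ∀ᶠ X : ℕ in atTop, ∀ Y : ℕ, (X : ℝ) ^ θ ≤ Y → Y ≤ X →
        κ * Y / Real.log X ^ 3 ≤
          N {n | n ∈ R H a q r ∧ ∀ h ∈ H, (n + h).primeFactorsList.length ≤ r} X (X + Y)) ∧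
      ∀ ε : ℝ, 0 < ε → ∃ c : ℝ, 0 < c ∧ ∀ δ : ℝ, 0 < δ → ∃ B : ℕ,
        ∀ᶠ X : ℕ in atTop, ∀ Y : ℕ, (X : ℝ) ^ θ ≤ Y → 2 * Y ≤ X → ∀ A : Set ℕ, A ⊆ R H a q r →
          (N (Irregular A 3 c δ B X Y) X (X + Y) : ℝ) ≤ ε * Y / Real.log X ^ 3 := by
  have h0 : 0 ∈ H := by rcases hH with rfl | rfl <;> simp
  have hc : H.card = 3 := by rcases hH with rfl | rfl <;> rfl
  obtain ⟨r0, hr0, h⟩ := Pool.Agent.TH977.PW.final_prog H ⟨0, h0⟩ q a hq ha
    (fun p hp => adm H hH p hp)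
    (fun r => R H a q r)
    (fun r => {n | n ∈ R H a q r ∧ ∀ h ∈ H, (n + h).primeFactorsList.length ≤ r}) 3 hc
    (fun r m _ hm => hm.2)
    (fun r _ => Eventually.of_forall (fun m hm h1 h2 => ⟨⟨hm, h1⟩, h2⟩)) θ hθ hθ1
  refine ⟨r0, hr0, fun r hr => ⟨?_, (h r hr).1, (h r hr).2⟩⟩
  intro n hna hn
  refine ⟨hna, fun h hh q' hq' hdv => ?_⟩
  have hn2 : 2 ≤ n := by simpa using (hn 0 h0).two_le
  rw [(Nat.prime_dvd_prime_iff_eq hq' (hn h hh)).1 hdv]
  exact Pool.Agent.TH977.PW.rpow_lt_of_le r n (n + h) (hr0.trans hr) hn2 (by omega)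

end Pool.Agent.Results.MP_c0d11e_nt.RegularTriples
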