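import Pool.Agent.Y879.PR.HLc

set_option autoImplicit false

/-!
Triples of both shapes `n, n + 2, n + 6` and `n, n + 4, n + 6` with one chosen member an ACTUAL prime and the
other two almost prime: the asymptotic number, with the Hardy-Littlewood constant `D`, the same for both shapes
and for each choice of the prime member, and the Poisson law of the triples which follow such a triple.
-/

namespace Pool.Agent.Results.MP_c0d11e_nt.TriplesAtPrimes

open Finset Filter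
open Pool.Agent.Y879.PR

/-- the shifts of the two shapes: `0, 2, 6` and `0, 4, 6` -/
def sh (s : Bool) : Fin 3 → ℕ := if s then ![0, 2, 6] else ![0, 4, 6]

/-- no `n + sh s i` has a prime factor `p ≤ N ^ (1 / r)` -/
def Good (s : Bool) (N r n : ℕ) : Prop :=
  ∀ p : ℕ, p.Prime → (p : ℝ) ≤ (N : ℝ) ^ (1 / (r : ℝ)) → ∀ i, ¬ p ∣ n + sh s i

/-- `0` for `p = 2, 3, 5`, otherwise `3` -/
def nu (p : ℕ) : ℕ := if p ∣ 30 then 0 else 3

/-- the density of the good numbers in an admissible class modulo `30`: the product of `1 - 3 / p` over the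
primes `5 < p ≤ N ^ (1 / r)` -/
noncomputable def V (N r : ℕ) : ℝ :=
  ∏ p ∈ (Icc 1 ⌊(N : ℝ) ^ (1 / (r : ℝ))⌋₊).filter Nat.Prime, (1 - (nu p : ℝ) / p)

/-- `V` divided by the product of `1 - 1 / p` over the primes `p ≤ N ^ (1 / r)` -/
noncomputable def W (N r : ℕ) : ℝ :=
  ∏ p ∈ (Icc 1 ⌊(N : ℝ) ^ (1 / (r : ℝ))⌋₊).filter Nat.Prime, (1 - (nu p : ℝ) / p) / (1 - 1 / (p : ℝ))

open Classical in
/-- the good `n` in `(A, A + L]` for which `n + sh s i` is PRIME -/
noncomputable def Pr (s : Bool) (N r : ℕ) (i : Fin 3) (A L : ℕ) : Finset ℕ :=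
  (Ioc A (A + L)).filter (fun n => (n + sh s i).Prime ∧ Good s N r n)

open Classical in
/-- the number of the good `l` in `(n, n + 30 T]` with `l = n` modulo `30` -/
noncomputable def Next (s : Bool) (N r T n : ℕ) : ℕ :=
  ((Ioc n (n + 30 * T)).filter (fun l => l % 30 = n % 30 ∧ Good s N r l)).card

/-- **Both shapes of triples, with an actual prime at a chosen place.** Let `D` be the Hardy-Littlewood
constant of the triples. For all `θ > 0`, `0 < δ ≤ 1`, `0 < ε ≤ 1` and `x₀` there is `r₀` such that for every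
`r ≥ r₀` and all large `N`, for both shapes: (1) every `n > N ^ (1 / r)` for which all three `n + sh s i` are
prime is good; (2) if `n ≤ N` is good, then each `n + sh s i` has at most `r` prime factors; (3) for each `i`
the number of the good `n ≤ N` with `n + sh s i` PRIME is `(1 + η) D (r e ^ (-γ)) ^ 2 N / log N ^ 3` with
`|η| ≤ ε`; (4) if `X ≥ N ^ θ`, `L ≥ δ X` and `A + L ≤ X`, then for each `i` the number of the good `n` in
`(A, A + L]` with `n + sh s i` PRIME is `(1 + η) (L / 15) W / log X`, `|η| ≤ ε`, and at these `n` the number of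
the good numbers in `(n, n + 30 T]` in the residue class of `n` modulo `30` has the Poisson law of mean `T V`,
up to `ε`, for all `T` with `T V ≤ x₀`. -/
theorem result : ∃ D : ℝ, 0 < D ∧
    Tendsto (fun N : ℕ => (9 / 2 : ℝ) * ∏ p ∈ (Finset.range N).filter (fun p => p.Prime ∧ 3 < p),
      ((p : ℝ) ^ 2 * ((p : ℝ) - 3) / ((p : ℝ) - 1) ^ 3)) atTop (nhds D) ∧
    ∀ θ δ x₀ ε : ℝ, 0 < θ → 0 < δ → δ ≤ 1 → 0 < ε → ε ≤ 1 →
    ∃ r₀ : ℕ, ∀ r : ℕ, r₀ ≤ r → ∃ N₀ : ℕ, ∀ N : ℕ, N₀ ≤ N → ∀ s : Bool,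
      (∀ n : ℕ, (N : ℝ) ^ (1 / (r : ℝ)) < n → (∀ i, (n + sh s i).Prime) → Good s N r n) ∧
      (∀ n : ℕ, n ≤ N → Good s N r n → ∀ i, (n + sh s i).primeFactorsList.length ≤ r) ∧
      (∀ i : Fin 3, |((Pr s N r i 0 N).card : ℝ) * Real.log N ^ 3 / N -
          D * (r * Real.exp (-Real.eulerMascheroniConstant)) ^ 2| ≤
        ε * (D * (r * Real.exp (-Real.eulerMascheroniConstant)) ^ 2)) ∧
      0 < W N r ∧
      ∀ (i : Fin 3) (X : ℕ), (N : ℝ) ^ θ ≤ X → ∀ A L : ℕ, δ * X ≤ L → A + L ≤ X →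
        |((Pr s N r i A L).card : ℝ) * Real.log X - L / 15 * W N r| ≤ ε * (L / 15 * W N r) ∧
        ∀ T : ℕ, T * V N r ≤ x₀ → ∀ B : Finset ℕ,
          |(((Pr s N r i A L).filter (fun n => Next s N r T n ∈ B)).card : ℝ) -
            (Pr s N r i A L).card *
              ∑ j ∈ B, Real.exp (-(T * V N r)) * (T * V N r) ^ j / j.factorial| ≤
            ε * (Pr s N r i A L).card := by
  obtain ⟨S, hS0, hS⟩ := HF_lim 3 (Or.inl rfl)
  refine ⟨9 / 2 * S, by positivity, ?_, ?_⟩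
  · refine (hS.const_mul (9 / 2)).congr ?_
    intro N
    unfold HF
    congr 1
    apply Finset.prod_congr rfl
    intro p hp
    simp only [Finset.mem_filter] at hp
    have h3 : (3 : ℝ) < p := by exact_mod_cast hp.2.2
    unfold hf
    rw [Nat.cast_ofNat]
    have h0 : (p : ℝ) ≠ 0 := by positivity
    have h1 : (p : ℝ) - 1 ≠ 0 := by linarith
    field_simp
  intro θ δ x₀ ε hθ hδ hδ1 hε hε1
  have both : ∀ s : Bool, ∃ C : Finset ℕ, C.card = 2 ∧ Pat2 30 (sh s) C := by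
    intro s
    cases s
    · exact ⟨{7, 13}, rfl, pat_tb⟩
    · exact ⟨{11, 17}, rfl, pat_ta⟩
  have one : ∀ s : Bool, ∃ r₀ : ℕ, ∀ r : ℕ, r₀ ≤ r → ∃ N₀ : ℕ, ∀ N : ℕ, N₀ ≤ N →
      (∀ n : ℕ, (N : ℝ) ^ (1 / (r : ℝ)) < n → (∀ i, (n + sh s i).Prime) → Good s N r n) ∧
      (∀ n : ℕ, n ≤ N → Good s N r n → ∀ i, (n + sh s i).primeFactorsList.length ≤ r) ∧
      (∀ i : Fin 3, |((Pr s N r i 0 N).card : ℝ) * Real.log N ^ 3 / N -
          9 / 2 * S * (r * Real.exp (-Real.eulerMascheroniConstant)) ^ 2| ≤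
        ε * (9 / 2 * S * (r * Real.exp (-Real.eulerMascheroniConstant)) ^ 2)) ∧
      0 < W N r ∧
      ∀ (i : Fin 3) (X : ℕ), (N : ℝ) ^ θ ≤ X → ∀ A L : ℕ, δ * X ≤ L → A + L ≤ X →
        |((Pr s N r i A L).card : ℝ) * Real.log X - L / 15 * W N r| ≤ ε * (L / 15 * W N r) ∧
        ∀ T : ℕ, T * V N r ≤ x₀ → ∀ B : Finset ℕ,
          |(((Pr s N r i A L).filter (fun n => Next s N r T n ∈ B)).card : ℝ) -
            (Pr s N r i A L).card *
              ∑ j ∈ B, Real.exp (-(T * V N r)) * (T * V N r) ^ j / j.factorial| ≤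
            ε * (Pr s N r i A L).card := by
    intro s
    obtain ⟨C, hC2, hP⟩ := both s
    have hCne : C.Nonempty := Finset.card_pos.1 (by omega)
    obtain ⟨r1, -, hlaw⟩ := pat_main hP hCne θ δ hθ hδ hδ1 x₀ ε hε hε1
    obtain ⟨r2, -, hform⟩ := hl_form hP hCne (Or.inl rfl) S hS0 hS ε hε hε1
    refine ⟨max r1 r2, ?_⟩
    intro r hr
    obtain ⟨N1, hN1⟩ := hlaw r ((le_max_left _ _).trans hr)
    obtain ⟨N2, hN2⟩ := eventually_atTop.1 (hform r ((le_max_right _ _).trans hr))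
    refine ⟨max N1 N2, ?_⟩
    intro N hN
    obtain ⟨h1, h2, h3, h4, h5, h6⟩ := hN1 N ((le_max_left _ _).trans hN)
    have h7 := hN2 N ((le_max_right _ _).trans hN)
    refine ⟨h2, h1, ?_, h3, ?_⟩
    · intro i
      have h8 := h7 i
      rw [hC2] at h8
      have e : ((2 : ℕ) : ℝ) / 30 * (3 ^ 3 * (5 / (5 - ((3 : ℕ) : ℝ))) * S *
          (r * Real.exp (-Real.eulerMascheroniConstant)) ^ (3 - 1)) =
          9 / 2 * S * (r * Real.exp (-Real.eulerMascheroniConstant)) ^ 2 := by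
        norm_num
        ring
      rw [e] at h8
      exact h8
    · intro i X hX A L hL hAL
      obtain ⟨h8, h9⟩ := h6 i X hX A L hL hAL
      refine ⟨?_, h9⟩
      have e : ((C.card : ℕ) : ℝ) * ((L : ℝ) / ((30 : ℕ) : ℝ) * PW 30 3 N r) = L / 15 * W N r := by
        rw [hC2]
        have : PW 30 3 N r = W N r := rfl
        rw [this]
        push_cast
        ring
      rw [e] at h8
      exact h8
  obtain ⟨r1, h1⟩ := one true
  obtain ⟨r2, h2⟩ := one false
  refine ⟨max r1 r2, ?_⟩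
  intro r hr
  obtain ⟨N1, g1⟩ := h1 r ((le_max_left _ _).trans hr)
  obtain ⟨N2, g2⟩ := h2 r ((le_max_right _ _).trans hr)
  refine ⟨max N1 N2, ?_⟩
  intro N hN s
  cases s
  · exact g2 N ((le_max_right _ _).trans hN)
  · exact g1 N ((le_max_left _ _).trans hN)

end Pool.Agent.Results.MP_c0d11e_nt.TriplesAtPrimes
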